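import Pool.Agent.Rosen.Seq

set_option autoImplicit false

/-!
MP_91e769_nt: an explicit upper bound for the pair-sum counts in Rosen's greedy sequence.
`Ne729cbcb.solutionCount x` (from the frozen statement) is the number `R(x)` of pairs
`i <= j <= x`, `j >= 1`, with `a_i + a_j <= x`; as `a_j >= j` this is the `R(x)` of the problem.
-/

namespace Pool.Agent.Results.MP_91e769_nt.LinearBound

theorem result (x : ℕ) (hx : 1 ≤ x) :
    (Ne729cbcb.solutionCount x : ℝ) ≤ 13 / 10 * (x : ℝ) + 3 * √(x : ℝ) :=
  Pool.Agent.Rosen.solutionCount_le hx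

end Pool.Agent.Results.MP_91e769_nt.LinearBound
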