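import Pool.Agent.Rosen.Seq

set_option autoImplicit false

/-!
MP_91e769_nt: explicit two-sided quadratic bounds for the terms of Rosen's greedy sequence
(`Ne729cbcb.rosen`, the sequence of the frozen statement).
-/

namespace Pool.Agent.Results.MP_91e769_nt.TermBounds

theorem result (k : ℕ) (hk : 1 ≤ k) :
    k ^ 2 + 4 * k ≤ 4 * Ne729cbcb.rosen k + 1 ∧ 2 * Ne729cbcb.rosen k ≤ k * (k + 1) :=
  ⟨Pool.Agent.Rosen.rosen_lower hk, Pool.Agent.Rosen.rosen_upper hk⟩

end Pool.Agent.Results.MP_91e769_nt.TermBounds
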